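import Mathlib

set_option autoImplicit false

/-!
# MP_2e9b9b_lc: the converse of the stepping-up lemma under GCH

`Arrow κ Γ η m` is the relation `κ → (η_k ; k ∈ Γ)^m` of the problem file: the colourings of the
`m`-element subsets of (the initial ordinal of) `κ` by the elements of `Γ`, and homogeneous sets of
prescribed order types `η_k`.

Proof. Let `f` colour the `n`-element subsets of `κ` without homogeneous sets of the given types.
Every ordinal `z < 2 ^ κ = κ⁺` has an injection `e_z : z → κ`. Colour the set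
`x_0 < ... < x_n` with `f {e_z x_0, ..., e_z x_{n-1}}`, where `z = x_n`. If `H` is homogeneous of
colour `k` and of type `η_k ∔ 1`, then `H` has a greatest element `z`, and the image of the rest of
`H` under `e_z` is a homogeneous set for `f` of colour `k` and of cardinality `η_k`, so it contains
one of type `η_k`, because `η_k` is a cardinal.
-/

namespace Pool.Agent.Results.MP_2e9b9b_lc.SteppingUpConverse

open Cardinal Ordinal Set

universe u

/-- The ordinary partition relation `κ → (η_k ; k ∈ Γ)^m` for an infinite cardinal `κ`, a set `Γ`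
of colours, ordinals `η_k` and `m ≥ 1`: for every map `c` from the `m`-element subsets of the
initial ordinal of `κ` to `Γ` there are a colour `k` and a set `H` of order type `η_k` all of whose
`m`-element subsets have colour `k`. -/
def Arrow (κ : Cardinal.{u}) (Γ : Type u) (η : Γ → Ordinal.{u}) (m : ℕ) : Prop :=
  ∀ c : {a : Finset κ.ord.ToType // a.card = m} → Γ,
    ∃ (k : Γ) (H : Set κ.ord.ToType), typeLT H = η k ∧
      ∀ a : {a : Finset κ.ord.ToType // a.card = m}, (↑a.1 : Set κ.ord.ToType) ⊆ H → c a = k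

/-- A subset of a well-ordered type has subsets of all smaller order types. -/
theorem exists_subset_type {α : Type u} [LinearOrder α] [WellFoundedLT α] (s : Set α)
    (o : Ordinal.{u}) (h : o ≤ typeLT s) : ∃ t : Set α, t ⊆ s ∧ typeLT t = o := by
  rw [← type_toType o] at h
  obtain ⟨f⟩ := Ordinal.type_le_iff.1 h
  let g : o.ToType → α := fun x => (f x : α)
  have hg : StrictMono g := by
    intro x y hxy
    have : f x < f y := f.toRelEmbedding.map_rel_iff.2 hxy
    exact this
  refine ⟨range g, ?_, ?_⟩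
  · rintro _ ⟨x, rfl⟩
    exact (f x).2
  · have e : o.ToType ≃o range g := hg.orderIso g
    have h2 := (e.toRelIsoLT).ordinalType_congr
    rw [type_toType] at h2
    exact h2.symm

/-- The key step: it holds whenever all initial segments of `Ω` inject into `κ`. -/
theorem step {κ lam : Cardinal.{u}} (hκ : ℵ₀ ≤ κ) (hlam : ∀ z : lam.ord.ToType, #(Iio z) ≤ κ)
    (n : ℕ) (Γ : Type u) (η : Γ → Cardinal.{u})
    (h : ¬ Arrow κ Γ (fun k => (η k).ord) n) :
    ¬ Arrow lam Γ (fun k => Order.succ (η k).ord) (n + 1) := by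
  classical
  unfold Arrow at h
  push Not at h
  obtain ⟨c, hc⟩ := h
  intro hA
  have hne : Nonempty κ.ord.ToType := by
    rw [← mk_ne_zero_iff, mk_ord_toType]
    exact (aleph0_pos.trans_le hκ).ne'
  -- maps `E z` into `κ`, injective below `z`
  have hE : ∀ z : lam.ord.ToType, ∃ f : lam.ord.ToType → κ.ord.ToType, InjOn f (Iio z) := by
    intro z
    have h1 : #(Iio z) ≤ #κ.ord.ToType := by rw [mk_ord_toType]; exact hlam z
    obtain ⟨e⟩ := (Cardinal.le_def _ _).1 h1
    refine ⟨fun y => if hy : y < z then e ⟨y, hy⟩ else Classical.choice hne, ?_⟩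
    intro x hx y hy hxy
    have hx' : x < z := hx
    have hy' : y < z := hy
    simp only [hx', hy', dif_pos] at hxy
    exact congrArg Subtype.val (e.injective hxy)
  choose E hEinj using hE
  -- a nonempty finite set has a greatest element
  have hpos : ∀ a : {a : Finset lam.ord.ToType // a.card = n + 1}, a.1.Nonempty := by
    intro a
    rw [← Finset.card_pos, a.2]
    omega
  have hcard : ∀ a : {a : Finset lam.ord.ToType // a.card = n + 1},
      ((a.1.erase (a.1.max' (hpos a))).image (E (a.1.max' (hpos a)))).card = n := by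
    intro a
    rw [Finset.card_image_of_injOn, Finset.card_erase_of_mem (Finset.max'_mem _ _), a.2]
    · rfl
    · apply (hEinj _).mono
      intro y hy
      have hy1 : y ≠ a.1.max' (hpos a) := (Finset.mem_erase.1 (Finset.mem_coe.1 hy)).1
      have hy2 : y ∈ a.1 := (Finset.mem_erase.1 (Finset.mem_coe.1 hy)).2
      exact lt_of_le_of_ne (Finset.le_max' _ _ hy2) hy1
  obtain ⟨k, H, hHtype, hH⟩ := hA (fun a => c ⟨_, hcard a⟩)
  -- the greatest element `z` of `H`
  have hlt : (η k).ord < typeLT H := by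
    rw [hHtype]
    exact Order.lt_succ _
  let z : H := enum (α := H) (· < ·) ⟨(η k).ord, hlt⟩
  have htz : typein (α := H) (· < ·) z = (η k).ord := typein_enum _ _
  have hcardz : #{y : H // y < z} = η k := by
    have h1 := card_typein (r := ((· < ·) : H → H → Prop)) z
    rw [htz, card_ord] at h1
    exact h1.symm
  -- its image
  let S : Set κ.ord.ToType := {w | ∃ y ∈ H, y < (z : lam.ord.ToType) ∧ E z y = w}
  have hScard : #S = η k := by
    rw [← hcardz]
    symm
    let F : {y : H // y < z} → S := fun y => ⟨E z y.1, ⟨y.1.1, y.1.2, y.2, rfl⟩⟩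
    apply mk_congr
    refine Equiv.ofBijective F ⟨?_, ?_⟩
    · intro x y hxy
      have h1 : E z x.1 = E z y.1 := congrArg Subtype.val hxy
      have h2 := hEinj (z : lam.ord.ToType) (show (x.1 : lam.ord.ToType) ∈ Iio _ from x.2)
        (show (y.1 : lam.ord.ToType) ∈ Iio _ from y.2) h1
      exact Subtype.ext (Subtype.ext h2)
    · rintro ⟨w, y, hyH, hyz, rfl⟩
      exact ⟨⟨⟨y, hyH⟩, hyz⟩, rfl⟩
  have hStype : (η k).ord ≤ typeLT S := by
    rw [Cardinal.ord_le, card_type, hScard]
  obtain ⟨t, htS, httype⟩ := exists_subset_type S _ hStype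
  obtain ⟨a, hat, hak⟩ := hc k t httype
  apply hak
  -- the preimage of `a`
  have hpre : ∀ w : κ.ord.ToType, w ∈ a.1 → ∃ y ∈ H, y < (z : lam.ord.ToType) ∧ E z y = w :=
    fun w hw => htS (hat (Finset.mem_coe.2 hw))
  have : Nonempty lam.ord.ToType := ⟨(z : lam.ord.ToType)⟩
  choose! p hpH hpz hpE using hpre
  have hpinj : InjOn p (a.1 : Set κ.ord.ToType) := by
    intro x hx y hy hxy
    rw [← hpE x (Finset.mem_coe.1 hx), ← hpE y (Finset.mem_coe.1 hy), hxy]
  have hznot : (z : lam.ord.ToType) ∉ a.1.image p := by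
    intro hz
    obtain ⟨w, hw, hwz⟩ := Finset.mem_image.1 hz
    have := hpz w hw
    rw [hwz] at this
    exact lt_irrefl _ this
  let b : Finset lam.ord.ToType := insert (z : lam.ord.ToType) (a.1.image p)
  have hbcard : b.card = n + 1 := by
    rw [Finset.card_insert_of_notMem hznot, Finset.card_image_of_injOn hpinj, a.2]
  have hbmem : ∀ y ∈ b, y ≤ (z : lam.ord.ToType) := by
    intro y hy
    rcases Finset.mem_insert.1 hy with h1 | h1
    · exact h1.le
    · obtain ⟨w, hw, rfl⟩ := Finset.mem_image.1 h1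
      exact (hpz w hw).le
  have hbH : (↑b : Set lam.ord.ToType) ⊆ H := by
    intro y hy
    rcases Finset.mem_insert.1 (Finset.mem_coe.1 hy) with h1 | h1
    · rw [h1]
      exact z.2
    · obtain ⟨w, hw, rfl⟩ := Finset.mem_image.1 h1
      exact hpH w hw
  have key := hH ⟨b, hbcard⟩ hbH
  have hmax : b.max' (hpos ⟨b, hbcard⟩) = (z : lam.ord.ToType) := by
    apply le_antisymm
    · exact Finset.max'_le _ _ _ hbmem
    · exact Finset.le_max' _ _ (Finset.mem_insert_self _ _)
  have himg : (b.erase (b.max' (hpos ⟨b, hbcard⟩))).image (E (b.max' (hpos ⟨b, hbcard⟩))) = a.1 := by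
    rw [hmax, Finset.erase_insert hznot, Finset.image_image]
    ext w
    constructor
    · intro hw
      obtain ⟨v, hv, hvw⟩ := Finset.mem_image.1 hw
      have : E z (p v) = v := hpE v hv
      simp only [Function.comp] at hvw
      rw [this] at hvw
      rw [← hvw]
      exact hv
    · intro hw
      exact Finset.mem_image.2 ⟨w, hw, hpE w hw⟩
  rw [← key]
  congr 1
  exact Subtype.ext himg.symm

/-- **Positive answer to Q1.** Assume GCH. Let `κ` be an infinite cardinal, `n ≥ 2`, let `Γ` be a
set of colours with `2 ≤ |Γ| < κ`, and let `η_k` (`k ∈ Γ`) be cardinals with `n < η_k ≤ κ`. If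
`κ ↛ (η_k ; k ∈ Γ)^n`, then `2 ^ κ ↛ (η_k ∔ 1 ; k ∈ Γ)^(n + 1)`, where `η_k ∔ 1` is the ordinal
successor of the initial ordinal `η_k`. -/
theorem result (gch : ∀ μ : Cardinal.{u}, ℵ₀ ≤ μ → (2 : Cardinal.{u}) ^ μ = Order.succ μ)
    (κ : Cardinal.{u}) (hκ : ℵ₀ ≤ κ) (n : ℕ) (_hn : 2 ≤ n) (Γ : Type u) (_hΓ2 : 2 ≤ #Γ)
    (_hΓ : #Γ < κ) (η : Γ → Cardinal.{u}) (_hη : ∀ k, (n : Cardinal.{u}) < η k ∧ η k ≤ κ)
    (h : ¬ Arrow κ Γ (fun k => (η k).ord) n) :
    ¬ Arrow (2 ^ κ) Γ (fun k => Order.succ (η k).ord) (n + 1) := by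
  apply step hκ _ n Γ η h
  intro z
  rw [← Order.lt_succ_iff, ← gch κ hκ]
  exact mk_Iio_toType_ord_lt z

end Pool.Agent.Results.MP_2e9b9b_lc.SteppingUpConverse
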